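import Pool.Agent.Lib_helper10.T2.Defs

/-!
# MRG: the theorem of Matomaki and Radziwill in `ℤ[i]` for all real completely multiplicative
functions and nonzero frequencies. Definitions (MP_892e4c_nt).
-/

set_option autoImplicit false

namespace Pool.Agent.PENT.MRG

open Pool.Agent.T2

/-- completely multiplicative functions with values `1`, `-1` on the nonzero Gaussian integers,
trivial on the units -/
structure RG (g : G → ℝ) : Prop where
  zero : g 0 = 0
  one : g 1 = 1
  ui : g Pool.Agent.T2.ui = 1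
  mul : ∀ z w, g (z * w) = g z * g w
  val : ∀ z, z ≠ 0 → g z = 1 ∨ g z = -1

theorem RG.abs {g : G → ℝ} (hg : RG g) (z : G) : |g z| ≤ 1 := by
  by_cases hz : z = 0
  · rw [hz, hg.zero]; norm_num
  · rcases hg.val z hz with h | h <;> rw [h] <;> norm_num

theorem RG.sq {g : G → ℝ} (hg : RG g) {z : G} (hz : z ≠ 0) : g z ^ 2 = 1 := by
  rcases hg.val z hz with h | h <;> rw [h] <;> norm_num

theorem RG.norm {g : G → ℝ} (hg : RG g) (z : G) : ‖(g z : ℂ)‖ ≤ 1 := by
  rw [Complex.norm_real, Real.norm_eq_abs]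
  exact hg.abs z

/-- the twisted sum of `g` over primitive elements -/
noncomputable def Sg (g : G → ℝ) {m : G} (χ : MChar m) (k : ℤ) (x : ℝ) : ℂ :=
  ∑ z ∈ PB x, (g z : ℂ) * xi χ k z

/-- the twisted sum of `g` over the prime elements of a set of primes -/
noncomputable def Qg (g : G → ℝ) {m : G} (χ : MChar m) (k : ℤ) (B : Finset ℕ) : ℂ :=
  ∑ p ∈ B, (g (pel p) : ℂ) * xi χ k (pel p)

end Pool.Agent.PENT.MRG
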